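import Mathlib

set_option autoImplicit false

namespace Pool.Agent.TH74.Oligo

open Monoid Monoid.Coprod

/-- A direct product of finitely presented groups is finitely presented. -/
theorem fp_prod (G H : Type) [Group G] [Group H] [Group.IsFinitelyPresented G]
    [Group.IsFinitelyPresented H] (A : Set G) (hA : A.Finite) (hA' : Subgroup.closure A = ⊤)
    (B : Set H) (hB : B.Finite) (hB' : Subgroup.closure B = ⊤) :
    Group.IsFinitelyPresented (G × H) := by
  set R : Set (Coprod G H) :=
    (fun p : G × H => (inl p.1 : Coprod G H) * inr p.2 * (inl p.1)⁻¹ * (inr p.2)⁻¹) '' (A ×ˢ B)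
    with hR
  have hRf : R.Finite := (hA.prod hB).image _
  set N := Subgroup.normalClosure R with hN
  have hfp : Group.IsFinitelyPresented (Coprod G H ⧸ N) :=
    Group.IsFinitelyPresented.quotient N ⟨R, hRf, rfl⟩
  let f : G →* Coprod G H ⧸ N := (QuotientGroup.mk' N).comp inl
  let g : H →* Coprod G H ⧸ N := (QuotientGroup.mk' N).comp inr
  have h1 : ∀ x ∈ A, ∀ y ∈ B, Commute (f x) (g y) := by
    intro x hx y hy
    have hmem : (inl x : Coprod G H) * inr y * (inl x)⁻¹ * (inr y)⁻¹ ∈ N :=
      Subgroup.subset_normalClosure ⟨(x, y), ⟨hx, hy⟩, rfl⟩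
    have h := (QuotientGroup.eq_one_iff (N := N) _).2 hmem
    have h' : f x * g y * (f x)⁻¹ * (g y)⁻¹ = 1 := h
    rw [mul_inv_eq_one, mul_inv_eq_iff_eq_mul] at h'
    exact h'
  have h2 : ∀ x : G, ∀ y ∈ B, Commute (f x) (g y) := by
    intro x y hy
    have hx : x ∈ Subgroup.closure A := by rw [hA']; trivial
    induction hx using Subgroup.closure_induction with
    | mem x hx => exact h1 x hx y hy
    | one => simp
    | mul x z _ _ hx hz => rw [map_mul]; exact hx.mul_left hz
    | inv x _ hx => rw [map_inv]; exact hx.inv_left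
  have h3 : ∀ (x : G) (y : H), Commute (f x) (g y) := by
    intro x y
    have hy : y ∈ Subgroup.closure B := by rw [hB']; trivial
    induction hy using Subgroup.closure_induction with
    | mem y hy => exact h2 x y hy
    | one => simp
    | mul x z _ _ hx hz => rw [map_mul]; exact hx.mul_right hz
    | inv x _ hx => rw [map_inv]; exact hx.inv_right
  let F : G × H →* Coprod G H ⧸ N := MonoidHom.noncommCoprod f g h3
  have hker : N ≤ (Coprod.toProd : Coprod G H →* G × H).ker := by
    rw [hN]
    apply Subgroup.normalClosure_le_normal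
    rintro _ ⟨⟨x, y⟩, -, rfl⟩
    simp [MonoidHom.mem_ker, Coprod.toProd]
  let K : Coprod G H ⧸ N →* G × H := QuotientGroup.lift N Coprod.toProd hker
  have hF : ∀ x y, F (x, y) = f x * g y := fun x y => rfl
  have hKf : ∀ x, K (f x) = (x, 1) := fun x => by
    change Coprod.toProd (inl x) = (x, 1)
    simp
  have hKg : ∀ y, K (g y) = (1, y) := fun y => by
    change Coprod.toProd (inr y) = (1, y)
    simp
  have e1 : F.comp K = MonoidHom.id _ := by
    apply QuotientGroup.monoidHom_ext
    apply Coprod.hom_ext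
    · ext x
      change F (K (f x)) = f x
      rw [hKf, hF, map_one, mul_one]
    · ext x
      change F (K (g x)) = g x
      rw [hKg, hF, map_one, one_mul]
  have e2 : K.comp F = MonoidHom.id _ := by
    apply MonoidHom.ext
    rintro ⟨x, y⟩
    rw [MonoidHom.comp_apply, hF, map_mul, hKf, hKg]
    simp
  exact Group.IsFinitelyPresented.equiv
    (MonoidHom.toMulEquiv K F e1 e2)

/-- Relative presentations: `G` finitely presented, acting on a set `Y` of letters with finitely
many orbits and finitely generated stabilizers, and finitely many further relators. -/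
theorem relPres {G Y : Type} [Group G] [MulAction G Y] [Group.IsFinitelyPresented G]
    [Finite (MulAction.orbitRel.Quotient G Y)]
    (hst : ∀ y : Y, (MulAction.stabilizer G y).FG)
    (W : Set (FreeGroup Y)) (hW : W.Finite) :
    ∃ (Q : Type) (_ : Group Q) (i : G →* Q) (a : Y → Q), Group.IsFinitelyPresented Q ∧
      (∀ g y, i g * a y * (i g)⁻¹ = a (g • y)) ∧ (∀ w ∈ W, FreeGroup.lift a w = 1) ∧
      (Subgroup.closure (Set.range i ∪ Set.range a) = ⊤) ∧
      (∀ (Γ : Type) [Group Γ] (i' : G →* Γ) (a' : Y → Γ),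
        (∀ g y, i' g * a' y * (i' g)⁻¹ = a' (g • y)) →
        (∀ w ∈ W, FreeGroup.lift a' w = 1) →
          ∃ π : Q →* Γ, (∀ g, π (i g) = i' g) ∧ ∀ y, π (a y) = a' y) := by
  classical
  let Ω := MulAction.orbitRel.Quotient G Y
  let C := Coprod G (FreeGroup Ω)
  let cl : Y → Ω := fun y => Quotient.mk _ y
  have hcl : ∀ (g : G) (y : Y), cl (g • y) = cl y := by
    intro g y
    apply Quotient.sound
    exact ⟨g, rfl⟩
  have hrep : ∀ y : Y, ∃ g : G, g • (cl y).out = y := by
    intro y
    have h : (cl y).out ∈ MulAction.orbit G y := Quotient.mk_out (s := MulAction.orbitRel G Y) y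
    obtain ⟨g, hg⟩ := h
    refine ⟨g⁻¹, ?_⟩
    rw [inv_smul_eq_iff]
    exact hg.symm
  choose γ hγ using hrep
  let b : Y → C := fun y => inl (γ y) * inr (FreeGroup.of (cl y)) * (inl (γ y))⁻¹
  choose T hT using fun ω : Ω => hst ω.out
  let R1 : Set C := ⋃ ω : Ω,
    (fun h : G => (inl h : C) * inr (FreeGroup.of ω) * (inl h)⁻¹ * (inr (FreeGroup.of ω))⁻¹) ''
      (T ω : Set G)
  let R2 : Set C := (FreeGroup.lift b) '' W
  have hR1 : R1.Finite := Set.finite_iUnion fun ω => (T ω).finite_toSet.image _
  have hR2 : R2.Finite := hW.image _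
  let N : Subgroup C := Subgroup.normalClosure (R1 ∪ R2)
  have hfp : Group.IsFinitelyPresented (C ⧸ N) :=
    Group.IsFinitelyPresented.quotient N ⟨R1 ∪ R2, hR1.union hR2, rfl⟩
  let i : G →* C ⧸ N := (QuotientGroup.mk' N).comp inl
  let c : Ω → C ⧸ N := fun ω => QuotientGroup.mk' N (inr (FreeGroup.of ω))
  let a : Y → C ⧸ N := fun y => QuotientGroup.mk' N (b y)
  have ha : ∀ y, a y = i (γ y) * c (cl y) * (i (γ y))⁻¹ := fun y => rfl
  -- general fact: in any group with `i' , c'` such that generators of stabilizers commute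
  have gen : ∀ (Γ : Type) [Group Γ] (i' : G →* Γ) (c' : Ω → Γ),
      (∀ ω, ∀ h ∈ T ω, Commute (i' h) (c' ω)) → ∀ (g : G) (ω : Ω) (y : Y), g • ω.out = y →
        i' g * c' ω * (i' g)⁻¹ = i' (γ y) * c' (cl y) * (i' (γ y))⁻¹ := by
    intro Γ _ i' c' hcomm g ω y hgy
    have hω : cl y = ω := by
      rw [← hgy, hcl]
      exact Quotient.out_eq ω
    have hs : (γ y)⁻¹ * g ∈ MulAction.stabilizer G ω.out := by
      rw [MulAction.mem_stabilizer_iff, mul_smul, hgy, inv_smul_eq_iff]
      have := hγ y
      rw [hω] at this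
      exact this.symm
    have hall : ∀ h ∈ MulAction.stabilizer G ω.out, Commute (i' h) (c' ω) := by
      intro h hh
      rw [← hT ω] at hh
      induction hh using Subgroup.closure_induction with
      | mem x hx => exact hcomm ω x hx
      | one => simp
      | mul x z _ _ hx hz => rw [map_mul]; exact hx.mul_left hz
      | inv x _ hx => rw [map_inv]; exact hx.inv_left
    have h := hall _ hs
    rw [hω]
    have h' : (i' (γ y))⁻¹ * i' g * c' ω = c' ω * ((i' (γ y))⁻¹ * i' g) := by
      have := h.eq
      rw [map_mul, map_inv] at this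
      exact this
    calc i' g * c' ω * (i' g)⁻¹ = i' (γ y) * ((i' (γ y))⁻¹ * i' g * c' ω) * (i' g)⁻¹ := by group
      _ = i' (γ y) * (c' ω * ((i' (γ y))⁻¹ * i' g)) * (i' g)⁻¹ := by rw [h']
      _ = _ := by group
  have hcomm : ∀ ω, ∀ h ∈ T ω, Commute (i h) (c ω) := by
    intro ω h hh
    have hmem : (inl h : C) * inr (FreeGroup.of ω) * (inl h)⁻¹ * (inr (FreeGroup.of ω))⁻¹ ∈ N := by
      apply Subgroup.subset_normalClosure
      left
      exact Set.mem_iUnion.2 ⟨ω, h, hh, rfl⟩
    have h1 := (QuotientGroup.eq_one_iff (N := N) _).2 hmem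
    have h' : i h * c ω * (i h)⁻¹ * (c ω)⁻¹ = 1 := h1
    rw [mul_inv_eq_one, mul_inv_eq_iff_eq_mul] at h'
    exact h'
  have hequiv : ∀ g y, i g * a y * (i g)⁻¹ = a (g • y) := by
    intro g y
    have h := gen (C ⧸ N) i c hcomm (g * γ y) (cl y) (g • y) (by rw [mul_smul, hγ])
    rw [ha, ha, ← h, map_mul]
    group
  have hliftb : ∀ w : FreeGroup Y, FreeGroup.lift a w = QuotientGroup.mk' N (FreeGroup.lift b w) := by
    intro w
    have : FreeGroup.lift a = (QuotientGroup.mk' N).comp (FreeGroup.lift b) := by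
      ext y
      simp [a]
    rw [this]
    rfl
  refine ⟨C ⧸ N, inferInstance, i, a, hfp, hequiv, ?_, ?_, ?_⟩
  · intro w hw
    rw [hliftb]
    refine (QuotientGroup.eq_one_iff (N := N) _).2 ?_
    apply Subgroup.subset_normalClosure
    right
    exact ⟨w, hw, rfl⟩
  · -- generation
    rw [eq_top_iff]
    rintro q -
    obtain ⟨x, rfl⟩ := QuotientGroup.mk'_surjective N q
    set M := Subgroup.closure (Set.range i ∪ Set.range a) with hM
    have hi : ∀ g, i g ∈ M := fun g => Subgroup.subset_closure (Or.inl ⟨g, rfl⟩)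
    have ha' : ∀ y, a y ∈ M := fun y => Subgroup.subset_closure (Or.inr ⟨y, rfl⟩)
    have hc : ∀ ω, c ω ∈ M := by
      intro ω
      have h := gen (C ⧸ N) i c hcomm 1 ω ω.out (one_smul _ _)
      rw [map_one, one_mul, inv_one, mul_one, ← ha] at h
      rw [h]
      exact ha' _
    have h1 : ∀ w : FreeGroup Ω, QuotientGroup.mk' N (inr w) ∈ M := by
      intro w
      induction w using FreeGroup.induction_on with
      | C1 => simp only [map_one]; exact one_mem _
      | of ω => exact hc ω
      | inv_of ω _ => rw [map_inv, map_inv]; exact inv_mem (hc ω)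
      | mul x y hx hy => rw [map_mul, map_mul]; exact mul_mem hx hy
    induction x using Coprod.induction_on with
    | inl g => exact hi g
    | inr w => exact h1 w
    | mul x y hx hy => rw [map_mul]; exact mul_mem hx hy
  · intro Γ _ i' a' hequiv' hW'
    let c' : Ω → Γ := fun ω => a' ω.out
    let f : C →* Γ := Coprod.lift i' (FreeGroup.lift c')
    have hfl : ∀ g, f (inl g) = i' g := fun g => Coprod.lift_apply_inl _ _ _
    have hfr : ∀ ω, f (inr (FreeGroup.of ω)) = c' ω := fun ω =>
      (Coprod.lift_apply_inr _ _ _).trans FreeGroup.lift_apply_of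
    have hfb : ∀ y, f (b y) = a' y := by
      intro y
      have : f (b y) = i' (γ y) * c' (cl y) * (i' (γ y))⁻¹ := by
        change f (inl (γ y) * inr (FreeGroup.of (cl y)) * (inl (γ y))⁻¹) = _
        rw [map_mul, map_mul, map_inv, hfl, hfr]
      rw [this]
      change i' (γ y) * a' (cl y).out * (i' (γ y))⁻¹ = a' y
      rw [hequiv', hγ]
    have hker : N ≤ f.ker := by
      apply Subgroup.normalClosure_le_normal
      rintro x (hx | hx)
      · obtain ⟨ω, h, hh, rfl⟩ := Set.mem_iUnion.1 hx
        have hs : h ∈ MulAction.stabilizer G ω.out := by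
          rw [← hT ω]
          exact Subgroup.subset_closure hh
        have h1 := hequiv' h ω.out
        rw [MulAction.mem_stabilizer_iff.1 hs] at h1
        rw [SetLike.mem_coe, MonoidHom.mem_ker]
        change f (inl h * inr (FreeGroup.of ω) * (inl h)⁻¹ * (inr (FreeGroup.of ω))⁻¹) = 1
        rw [map_mul, map_mul, map_mul, map_inv, map_inv, hfl, hfr]
        change i' h * a' ω.out * (i' h)⁻¹ * (a' ω.out)⁻¹ = 1
        rw [h1, mul_inv_cancel]
      · obtain ⟨w, hw, rfl⟩ := hx
        simp only [SetLike.mem_coe, MonoidHom.mem_ker]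
        have : f.comp (FreeGroup.lift b) = FreeGroup.lift a' := by
          ext y
          simp [hfb]
        rw [← MonoidHom.comp_apply, this]
        exact hW' w hw
    refine ⟨QuotientGroup.lift N f hker, ?_, ?_⟩
    · intro g
      exact hfl g
    · intro y
      exact hfb y

end Pool.Agent.TH74.Oligo
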