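import Mathlib

set_option autoImplicit false

namespace Pool.Agent.TH74.Oligo

open Equiv

/-- elements generated by the `a y`, `y ∈ F`, fix the point `some z` for `z ∉ F` -/
theorem fix_of_notMem {Y P : Type*} [DecidableEq Y] [Group P] (a : Y → P)
    (π : P →* Perm (Option Y)) (hπ : ∀ y, π (a y) = swap none (some y))
    (F : Set Y) (z : Y) (hz : z ∉ F) (q : P) (hq : q ∈ Subgroup.closure (a '' F)) :
    π q (some z) = some z := by
  induction hq using Subgroup.closure_induction with
  | mem x hx =>
    obtain ⟨y, hy, rfl⟩ := hx
    rw [hπ]
    apply swap_apply_of_ne_of_ne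
    · simp
    · intro h
      apply hz
      rw [Option.some.inj h]
      exact hy
  | one => simp
  | mul x y _ _ hx hy => rw [map_mul, Perm.mul_apply, hy, hx]
  | inv x _ hx => rw [map_inv, Perm.inv_eq_iff_eq, hx]

/-- The star presentation of the group of finitary permutations: faithfulness. -/
theorem star_inj {Y P : Type*} [DecidableEq Y] [Group P] (a : Y → P)
    (π : P →* Perm (Option Y)) (hπ : ∀ y, π (a y) = swap none (some y))
    (h2 : ∀ y, a y * a y = 1)
    (h3 : ∀ x y, x ≠ y → a x * a y * a x = a y * a x * a y)
    (h4 : ∀ x y z, x ≠ y → x ≠ z → y ≠ z → Commute (a z) (a x * a y * a x))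
    (p : P) (hp : p ∈ Subgroup.closure (Set.range a)) (h1 : π p = 1) : p = 1 := by
  have hinv : ∀ y, (a y)⁻¹ = a y := fun y => inv_eq_of_mul_eq_one_left (h2 y)
  -- local finiteness
  have hfin : ∃ F : Finset Y, p ∈ Subgroup.closure (a '' (F : Set Y)) := by
    clear h1
    induction hp using Subgroup.closure_induction with
    | mem x hx =>
      obtain ⟨y, rfl⟩ := hx
      exact ⟨{y}, Subgroup.subset_closure ⟨y, by simp, rfl⟩⟩
    | one => exact ⟨∅, one_mem _⟩
    | mul x y _ _ hx hy =>
      obtain ⟨F, hF⟩ := hx
      obtain ⟨F', hF'⟩ := hy
      refine ⟨F ∪ F', mul_mem ?_ ?_⟩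
      · exact Subgroup.closure_mono (Set.image_mono (by simp)) hF
      · exact Subgroup.closure_mono (Set.image_mono (by simp)) hF'
    | inv x _ hx =>
      obtain ⟨F, hF⟩ := hx
      exact ⟨F, inv_mem hF⟩
  obtain ⟨F, hF⟩ := hfin
  clear hp
  induction F using Finset.induction_on generalizing p with
  | empty => simpa using hF
  | insert z F hz ih =>
    set T := Subgroup.closure (a '' (F : Set Y)) with hT
    have hmem : ∀ y ∈ F, a y ∈ T := fun y hy => Subgroup.subset_closure ⟨y, hy, rfl⟩
    have key : p ∈ T ∨ (∃ q ∈ T, p = a z * q) ∨ (∃ x ∈ F, ∃ q ∈ T, p = a x * a z * q) := by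
      have step : ∀ y ∈ insert z F, ∀ p : P,
          (p ∈ T ∨ (∃ q ∈ T, p = a z * q) ∨ (∃ x ∈ F, ∃ q ∈ T, p = a x * a z * q)) →
          (a y * p ∈ T ∨ (∃ q ∈ T, a y * p = a z * q) ∨
            (∃ x ∈ F, ∃ q ∈ T, a y * p = a x * a z * q)) := by
        intro y hy p hp
        rw [Finset.mem_insert] at hy
        rcases hy with rfl | hy
        · rcases hp with hp | ⟨q, hq, rfl⟩ | ⟨x, hx, q, hq, rfl⟩
          · exact Or.inr (Or.inl ⟨p, hp, rfl⟩)
          · left
            rw [← mul_assoc, h2, one_mul]
            exact hq
          · right; right
            have hxy : x ≠ y := by rintro rfl; exact hz hx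
            refine ⟨x, hx, a x * q, mul_mem (hmem x hx) hq, ?_⟩
            have := h3 x y hxy
            calc a y * (a x * a y * q) = (a y * a x * a y) * q := by group
              _ = (a x * a y * a x) * q := by rw [this]
              _ = a x * a y * (a x * q) := by group
        · rcases hp with hp | ⟨q, hq, rfl⟩ | ⟨x, hx, q, hq, rfl⟩
          · left
            exact mul_mem (hmem y hy) hp
          · right; right
            exact ⟨y, hy, q, hq, by group⟩
          · by_cases hxy : x = y
            · subst hxy
              right; left
              refine ⟨q, hq, ?_⟩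
              rw [← mul_assoc, ← mul_assoc, h2, one_mul]
            · right; right
              have hyz : y ≠ z := by rintro rfl; exact hz hy
              have hxz : x ≠ z := by rintro rfl; exact hz hx
              refine ⟨x, hx, (a x * a y * a x) * q,
                mul_mem (mul_mem (mul_mem (hmem x hx) (hmem y hy)) (hmem x hx)) hq, ?_⟩
              have h := h4 x y z hxy hxz hyz
              calc a y * (a x * a z * q) = (a x)⁻¹ * ((a x * a y * a x) * a z) * q := by group
                _ = (a x)⁻¹ * (a z * (a x * a y * a x)) * q := by rw [← h.eq]
                _ = a x * a z * (a x * a y * a x * q) := by rw [hinv]; group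
      clear h1
      induction hF using Subgroup.closure_induction_left with
      | one => exact Or.inl (one_mem _)
      | mul_left x hx y _ ih' =>
        obtain ⟨u, hu, rfl⟩ := hx
        exact step u (by exact_mod_cast hu) y ih'
      | inv_mul_cancel x hx y _ ih' =>
        obtain ⟨u, hu, rfl⟩ := hx
        rw [hinv]
        exact step u (by exact_mod_cast hu) y ih'
    rcases key with h | ⟨q, hq, rfl⟩ | ⟨x, hx, q, hq, rfl⟩
    · exact ih p h1 h
    · exfalso
      have hfix := fix_of_notMem a π hπ (F : Set Y) z (by simpa using hz) q hq
      have := congrArg (fun f : Perm (Option Y) => f (some z)) h1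
      simp only [map_mul, Perm.mul_apply, hfix, hπ, swap_apply_right, Perm.one_apply] at this
      simp at this
    · exfalso
      have hfix := fix_of_notMem a π hπ (F : Set Y) z (by simpa using hz) q hq
      have := congrArg (fun f : Perm (Option Y) => f (some z)) h1
      simp only [map_mul, Perm.mul_apply, hfix, hπ, swap_apply_right, swap_apply_left,
        Perm.one_apply] at this
      have hxz : x = z := Option.some.inj this
      exact hz (hxz ▸ hx)

/-- from relations on pairs to relations on triples, with one auxiliary letter -/
theorem triple {S P : Type*} [Group P] (a : Option S → P)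
    (h2 : ∀ y, a y * a y = 1)
    (h3 : ∀ x y, x ≠ y → a x * a y * a x = a y * a x * a y)
    (hc1 : ∀ x y : S, x ≠ y → Commute (a none) (a (some x) * a (some y) * a (some x)))
    (hc2 : ∀ x y : S, x ≠ y → Commute (a (some x)) (a none * a (some y) * a none)) :
    ∀ x y z : Option S, x ≠ y → x ≠ z → y ≠ z → Commute (a z) (a x * a y * a x) := by
  intro x y z hxy hxz hyz
  have hinv : ∀ y, (a y)⁻¹ = a y := fun y => inv_eq_of_mul_eq_one_left (h2 y)
  cases z with
  | none =>
    cases x with
    | none => exact absurd rfl hxz
    | some x =>
      cases y with
      | none => exact absurd rfl hyz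
      | some y => exact hc1 x y (fun h => hxy (by rw [h]))
  | some z =>
    cases x with
    | none =>
      cases y with
      | none => exact absurd rfl hxy
      | some y => exact hc2 z y (fun h => hyz (by rw [h]))
    | some x =>
      have hxz' : z ≠ x := fun h => hxz (by rw [h])
      cases y with
      | none =>
        rw [h3 (some x) none hxy]
        exact hc2 z x hxz'
      | some y =>
        have hyz' : z ≠ y := fun h => hyz (by rw [h])
        have hxy' : x ≠ y := fun h => hxy (by rw [h])
        have e : a (some x) * a (some y) * a (some x)
            = (a none * a (some x) * a none) * (a none * a (some y) * a none)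
              * (a none * a (some x) * a none) := by
          have h := hc1 x y hxy'
          calc a (some x) * a (some y) * a (some x)
              = a none * (a none * (a (some x) * a (some y) * a (some x))) := by
                rw [← mul_assoc, h2, one_mul]
            _ = a none * ((a (some x) * a (some y) * a (some x)) * a none) := by rw [h.eq]
            _ = a none * a (some x) * (a none * a none) * a (some y) * (a none * a none)
                * a (some x) * a none := by rw [h2]; group
            _ = _ := by group
        rw [e]
        exact ((hc2 z x hxz').mul_right (hc2 z y hyz')).mul_right (hc2 z x hxz')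

end Pool.Agent.TH74.Oligo
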