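import Mathlib
import Pool.Agent.TH74.Oligo.Star
import Pool.Agent.TH74.Oligo.Pres

set_option autoImplicit false

namespace Pool.Agent.TH74.Oligo

open Equiv

section
variable {S : Type}

/-- the relators attached to a pair of points -/
noncomputable def relators (p : S × S) : Set (FreeGroup (Option S)) :=
  let c : FreeGroup (Option S) := FreeGroup.of none
  let x : FreeGroup (Option S) := FreeGroup.of (some p.1)
  let y : FreeGroup (Option S) := FreeGroup.of (some p.2)
  {w | w = x * x ∨ w = (c * x * c) * (x * c * x)⁻¹ ∨
    (p.1 ≠ p.2 ∧ (w = (x * y * x) * (y * x * y)⁻¹ ∨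
      w = (c * (x * y * x)) * ((x * y * x) * c)⁻¹ ∨
      w = (x * (c * y * c)) * ((c * y * c) * x)⁻¹))}

theorem relators_finite (p : S × S) : (relators p).Finite := by
  classical
  let c : FreeGroup (Option S) := FreeGroup.of none
  let x : FreeGroup (Option S) := FreeGroup.of (some p.1)
  let y : FreeGroup (Option S) := FreeGroup.of (some p.2)
  apply Set.Finite.subset (s := {x * x, (c * x * c) * (x * c * x)⁻¹,
    (x * y * x) * (y * x * y)⁻¹, (c * (x * y * x)) * ((x * y * x) * c)⁻¹,
    (x * (c * y * c)) * ((c * y * c) * x)⁻¹})
  · exact Set.toFinite _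
  · rintro w (h | h | ⟨-, h | h | h⟩)
    · simp [h, x]
    · simp [h, x, c]
    · simp [h, x, y]
    · simp [h, x, y, c]
    · simp [h, x, y, c]

theorem relators_iff {P : Type} [Group P] (a : Option S → P) (p : S × S) :
    (∀ w ∈ relators p, FreeGroup.lift a w = 1) ↔
      (a (some p.1) * a (some p.1) = 1 ∧
       a none * a (some p.1) * a none = a (some p.1) * a none * a (some p.1) ∧
       (p.1 ≠ p.2 →
        (a (some p.1) * a (some p.2) * a (some p.1) = a (some p.2) * a (some p.1) * a (some p.2) ∧
         a none * (a (some p.1) * a (some p.2) * a (some p.1)) =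
          (a (some p.1) * a (some p.2) * a (some p.1)) * a none ∧
         a (some p.1) * (a none * a (some p.2) * a none) =
          (a none * a (some p.2) * a none) * a (some p.1)))) := by
  constructor
  · intro h
    refine ⟨?_, ?_, fun hne => ⟨?_, ?_, ?_⟩⟩
    · have := h _ (Or.inl rfl)
      simpa using this
    · have := h _ (Or.inr (Or.inl rfl))
      rw [map_mul, map_inv, mul_inv_eq_one] at this
      simpa using this
    · have := h _ (Or.inr (Or.inr ⟨hne, Or.inl rfl⟩))
      rw [map_mul, map_inv, mul_inv_eq_one] at this
      simpa using this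
    · have := h _ (Or.inr (Or.inr ⟨hne, Or.inr (Or.inl rfl)⟩))
      rw [map_mul, map_inv, mul_inv_eq_one] at this
      simpa using this
    · have := h _ (Or.inr (Or.inr ⟨hne, Or.inr (Or.inr rfl)⟩))
      rw [map_mul, map_inv, mul_inv_eq_one] at this
      simpa using this
  · rintro ⟨h1, h2, h3⟩ w (rfl | rfl | ⟨hne, rfl | rfl | rfl⟩)
    · simpa using h1
    · rw [map_mul, map_inv, mul_inv_eq_one]
      simpa using h2
    · rw [map_mul, map_inv, mul_inv_eq_one]
      simpa using (h3 hne).1
    · rw [map_mul, map_inv, mul_inv_eq_one]
      simpa using (h3 hne).2.1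
    · rw [map_mul, map_inv, mul_inv_eq_one]
      simpa using (h3 hne).2.2

end

theorem swap_conj {X : Type*} [DecidableEq X] (f : Perm X) (x y : X) :
    f * swap x y * f⁻¹ = swap (f x) (f y) := by
  rw [Equiv.swap_apply_apply]

/-- relations between star transpositions -/
theorem swap_star {S : Type} [DecidableEq S] (p : S × S) :
    ∀ w ∈ relators p, FreeGroup.lift
      (fun y : Option S => (swap none (some y) : Perm (Option (Option S)))) w = 1 := by
  rw [relators_iff]
  have hcx : ∀ u v : Option S, u ≠ v →
      (swap none (some u) * swap none (some v) * swap none (some u) :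
        Perm (Option (Option S))) = swap (some u) (some v) := by
    intro u v huv
    have h := swap_conj (swap none (some u)) none (some v : Option (Option S))
    rw [swap_inv, swap_apply_left] at h
    rw [h, swap_apply_of_ne_of_ne (by simp) (by simpa using huv.symm)]
  have hcomm : ∀ u v w : Option S, u ≠ v → u ≠ w → v ≠ w →
      (swap none (some w) * swap (some u) (some v) : Perm (Option (Option S)))
        = swap (some u) (some v) * swap none (some w) := by
    intro u v w huv huw hvw
    have h := swap_conj (swap (some u) (some v)) none (some w : Option (Option S))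
    rw [swap_inv, swap_apply_of_ne_of_ne (by simp) (by simp),
      swap_apply_of_ne_of_ne (by simpa using huw.symm) (by simpa using hvw.symm)] at h
    rw [mul_assoc] at h
    nth_rewrite 1 [← h]
    rw [mul_assoc, mul_assoc, swap_mul_self, mul_one]
  refine ⟨swap_mul_self _ _, ?_, fun hne => ⟨?_, ?_, ?_⟩⟩
  · rw [hcx none (some p.1) (by simp), hcx (some p.1) none (by simp), swap_comm]
  · rw [hcx (some p.1) (some p.2) (by simpa using hne),
      hcx (some p.2) (some p.1) (by simpa using hne.symm), swap_comm]
  · rw [hcx (some p.1) (some p.2) (by simpa using hne)]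
    exact hcomm _ _ _ (by simpa using hne) (by simp) (by simp)
  · rw [hcx none (some p.2) (by simp)]
    exact hcomm _ _ _ (by simp) (by simp) (by simpa using hne.symm)

/-- The extension `FSym (S ⊔ {o, o'}) ⋊ G` is finitely presented. -/
theorem mainFP {G S : Type} [Group G] [MulAction G S] [Group.IsFinitelyPresented G]
    (E : Finset (S × S)) (hE : ∀ x y : S, ∃ g : G, ∃ p ∈ E, g • p.1 = x ∧ g • p.2 = y)
    (hst : ∀ s : S, (MulAction.stabilizer G s).FG)
    (hinf : ∀ g : G, g ≠ 1 → {s : S | g • s ≠ s}.Infinite) :
    ∃ (Q : Type) (_ : Group Q) (i : G →* Q) (π : Q →* Perm (Option (Option S))),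
      Group.IsFinitelyPresented Q ∧ Function.Injective i ∧ Function.Injective π ∧
      (∀ (g : G) (x : S), π (i g) (some (some x)) = some (some (g • x))) ∧
      (∀ f : Perm (Option (Option S)), (MulAction.fixedBy (Option (Option S)) f)ᶜ.Finite →
        f ∈ π.range) := by
  classical
  -- finitely many orbits on `Option S`
  have hfinS : Finite (MulAction.orbitRel.Quotient G (Option S)) := by
    let f : Option E → MulAction.orbitRel.Quotient G (Option S) := fun o =>
      match o with
      | none => Quotient.mk _ none
      | some p => Quotient.mk _ (some p.1.1)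
    apply Finite.of_surjective f
    intro q
    induction q using Quotient.inductionOn with
    | h y =>
      cases y with
      | none => exact ⟨none, rfl⟩
      | some s =>
        obtain ⟨g, p, hp, h1, -⟩ := hE s s
        refine ⟨some ⟨p, hp⟩, ?_⟩
        apply Quotient.sound
        refine ⟨g⁻¹, ?_⟩
        change g⁻¹ • (some s : Option S) = some p.1
        rw [inv_smul_eq_iff, Option.smul_some, h1]
  have hstO : ∀ y : Option S, (MulAction.stabilizer G y).FG := by
    intro y
    cases y with
    | none =>
      have : MulAction.stabilizer G (none : Option S) = ⊤ := by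
        rw [eq_top_iff]
        intro g _
        rw [MulAction.mem_stabilizer_iff]
        rfl
      rw [this]
      have : Group.FG G := by
        obtain ⟨n, φ, hφ, -⟩ := (inferInstance : Group.IsFinitelyPresented G)
        exact Group.fg_of_surjective hφ
      exact Group.FG.out
    | some s =>
      have : MulAction.stabilizer G (some s : Option S) = MulAction.stabilizer G s := by
        ext g
        simp [MulAction.mem_stabilizer_iff]
      rw [this]
      exact hst s
  let W : Set (FreeGroup (Option S)) := {FreeGroup.of none * FreeGroup.of none} ∪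
    ⋃ p ∈ E, relators p
  have hW : W.Finite := (Set.finite_singleton _).union
    (Set.Finite.biUnion E.finite_toSet fun p _ => relators_finite p)
  obtain ⟨Q, _, i, a, hfp, hia, hWa, hgen, huniv⟩ := relPres hstO W hW
  have hia' : ∀ g y, a (g • y) = MulAut.conj (i g) (a y) := fun g y => (hia g y).symm
  -- the relations
  have hn2 : a none * a none = 1 := by
    have := hWa (FreeGroup.of none * FreeGroup.of none) (Or.inl rfl)
    simpa using this
  have hrel : ∀ x y : S, ∀ w ∈ relators (x, y), FreeGroup.lift a w = 1 := by
    intro x y
    obtain ⟨g, p, hp, rfl, rfl⟩ := hE x y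
    have h1 : ∀ w ∈ relators p, FreeGroup.lift a w = 1 := fun w hw =>
      hWa w (Or.inr (Set.mem_iUnion₂.2 ⟨p, hp, hw⟩))
    rw [relators_iff] at h1 ⊢
    obtain ⟨e1, e2, e3⟩ := h1
    have hn : a none = MulAut.conj (i g) (a none) := hia' g none
    have hs : ∀ z : S, a (some (g • z)) = MulAut.conj (i g) (a (some z)) := fun z =>
      hia' g (some z)
    refine ⟨?_, ?_, fun hne => ?_⟩
    · simp only [hs, ← map_mul, e1, map_one]
    · rw [hn]
      simp only [hs, ← map_mul, e2]
    · obtain ⟨e4, e5, e6⟩ := e3 (fun h => hne (by simp [h]))
      refine ⟨?_, ?_, ?_⟩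
      · simp only [hs, ← map_mul, e4]
      · rw [hn]
        simp only [hs, ← map_mul, e5]
      · rw [hn]
        simp only [hs, ← map_mul, e6]
  have hrel' := fun x y : S => (relators_iff a (x, y)).1 (hrel x y)
  have h2 : ∀ y, a y * a y = 1 := by
    intro y
    cases y with
    | none => exact hn2
    | some s => exact (hrel' s s).1
  have h3 : ∀ x y, x ≠ y → a x * a y * a x = a y * a x * a y := by
    intro x y hxy
    cases x with
    | none =>
      cases y with
      | none => exact absurd rfl hxy
      | some y => exact (hrel' y y).2.1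
    | some x =>
      cases y with
      | none => exact (hrel' x x).2.1.symm
      | some y => exact ((hrel' x y).2.2 (fun h => hxy (by simpa using h))).1
  have h4 := triple a h2 h3
    (fun x y hxy => ((hrel' x y).2.2 hxy).2.1)
    (fun x y hxy => ((hrel' x y).2.2 hxy).2.2)
  -- the homomorphism to the symmetric group
  obtain ⟨π, hπi, hπa⟩ := huniv (Perm (Option (Option S)))
    (MulAction.toPermHom G (Option (Option S)))
    (fun y => swap none (some y))
    (by
      intro g y
      rw [swap_conj]
      rfl)
    (by
      rintro w (hw | hw)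
      · rw [Set.mem_singleton_iff] at hw
        rw [hw]
        simp
      · obtain ⟨p, hp, hw⟩ := Set.mem_iUnion₂.1 hw
        exact swap_star p w hw)
  have hfinrange : ∀ t ∈ Subgroup.closure (Set.range a),
      (MulAction.fixedBy (Option (Option S)) (π t))ᶜ.Finite := by
    intro t ht
    have h1 : π t ∈ Subgroup.closure {σ : Perm (Option (Option S)) | σ.IsSwap} := by
      have : (Subgroup.closure (Set.range a)).map π ≤
          Subgroup.closure {σ : Perm (Option (Option S)) | σ.IsSwap} := by
        rw [MonoidHom.map_closure, Subgroup.closure_le]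
        rintro _ ⟨_, ⟨y, rfl⟩, rfl⟩
        apply Subgroup.subset_closure
        exact ⟨none, some y, by simp, hπa y⟩
      exact this ⟨t, ht, rfl⟩
    exact mem_closure_isSwap'.1 h1
  have hdecomp : ∀ q : Q, ∃ t ∈ Subgroup.closure (Set.range a), ∃ g : G, q = t * i g := by
    have hconj : ∀ g : G, ∀ t ∈ Subgroup.closure (Set.range a),
        i g * t * (i g)⁻¹ ∈ Subgroup.closure (Set.range a) := by
      intro g t ht
      induction ht using Subgroup.closure_induction with
      | mem x hx =>
        obtain ⟨y, rfl⟩ := hx
        rw [hia]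
        exact Subgroup.subset_closure ⟨_, rfl⟩
      | one => simp
      | mul x y _ _ hx hy =>
        have : i g * (x * y) * (i g)⁻¹ = (i g * x * (i g)⁻¹) * (i g * y * (i g)⁻¹) := by group
        rw [this]
        exact mul_mem hx hy
      | inv x _ hx =>
        have : i g * x⁻¹ * (i g)⁻¹ = (i g * x * (i g)⁻¹)⁻¹ := by group
        rw [this]
        exact inv_mem hx
    intro q
    have hq : q ∈ Subgroup.closure (Set.range i ∪ Set.range a) := by rw [hgen]; trivial
    induction hq using Subgroup.closure_induction with
    | mem x hx =>
      rcases hx with ⟨g, rfl⟩ | ⟨y, rfl⟩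
      · exact ⟨1, one_mem _, g, by simp⟩
      · exact ⟨a y, Subgroup.subset_closure ⟨y, rfl⟩, 1, by simp⟩
    | one => exact ⟨1, one_mem _, 1, by simp⟩
    | mul x y _ _ hx hy =>
      obtain ⟨t, ht, g, rfl⟩ := hx
      obtain ⟨t', ht', g', rfl⟩ := hy
      refine ⟨t * (i g * t' * (i g)⁻¹), mul_mem ht (hconj g t' ht'), g * g', ?_⟩
      rw [map_mul]
      group
    | inv x _ hx =>
      obtain ⟨t, ht, g, rfl⟩ := hx
      refine ⟨i g⁻¹ * t⁻¹ * (i g⁻¹)⁻¹, hconj g⁻¹ t⁻¹ (inv_mem ht), g⁻¹, ?_⟩
      rw [map_inv]
      group
  have hact : ∀ (g : G) (x : S), π (i g) (some (some x)) = some (some (g • x)) := by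
    intro g x
    rw [hπi]
    rfl
  have hinjπ : Function.Injective π := by
    rw [injective_iff_map_eq_one]
    intro q hq
    obtain ⟨t, ht, g, rfl⟩ := hdecomp q
    have hg : g = 1 := by
      by_contra hne
      apply hinf g hne
      have h1 : π (i g) = (π t)⁻¹ := by
        rw [map_mul] at hq
        exact eq_inv_of_mul_eq_one_right hq
      have h2 : (MulAction.fixedBy (Option (Option S)) (π (i g)))ᶜ.Finite := by
        rw [h1, ← map_inv]
        exact hfinrange _ (inv_mem ht)
      apply Set.Finite.subset (h2.preimage
        (f := fun s : S => (some (some s) : Option (Option S))) ?_)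
      · intro s hs
        simp only [Set.mem_preimage, Set.mem_compl_iff, MulAction.mem_fixedBy, Perm.smul_def]
        rw [hact]
        intro h
        exact hs (by simpa using h)
      · intro x _ y _ hxy
        simpa using hxy
    subst hg
    rw [map_one, mul_one] at hq ⊢
    exact star_inj a π hπa h2 h3 h4 t ht hq
  refine ⟨Q, inferInstance, i, π, hfp, ?_, hinjπ, hact, ?_⟩
  · rw [injective_iff_map_eq_one]
    intro g hg
    by_contra hne
    apply hinf g hne
    have : {s : S | g • s ≠ s} = ∅ := by
      ext s
      simp only [Set.mem_ofPred_eq, Set.mem_empty_iff_false, iff_false, not_not]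
      have := hact g s
      rw [hg, map_one, Perm.one_apply] at this
      simpa using this.symm
    rw [this]
    exact Set.finite_empty
  · intro f hf
    have h1 := mem_closure_isSwap'.2 hf
    have h2 : ∀ x : Option (Option S), swap none x ∈ π.range := by
      intro x
      cases x with
      | none => rw [swap_self]; exact one_mem _
      | some y => exact ⟨a y, hπa y⟩
    have h3 : Subgroup.closure {σ : Perm (Option (Option S)) | σ.IsSwap} ≤ π.range := by
      rw [Subgroup.closure_le]
      rintro _ ⟨x, y, -, rfl⟩
      exact SubmonoidClass.swap_mem_trans _ (swap_comm none x ▸ h2 x) (h2 y)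
    exact h3 h1

end Pool.Agent.TH74.Oligo
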