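import Mathlib

set_option autoImplicit false

namespace Pool.Agent.TH74.Oligo

open Equiv MulAction

theorem swap_conj' {X : Type*} [DecidableEq X] (f : Perm X) (x y : X) :
    f * swap x y * f⁻¹ = swap (f x) (f y) := by
  rw [Equiv.swap_apply_apply]

/-- an injection defined on a finite set extends to a finitary permutation -/
theorem exists_finitary {X : Type*} [DecidableEq X] (F : Finset X) (f : X → X)
    (hf : Set.InjOn f F) :
    ∃ τ ∈ Subgroup.closure {σ : Perm X | σ.IsSwap}, ∀ x ∈ F, τ x = f x := by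
  induction F using Finset.induction_on with
  | empty => exact ⟨1, one_mem _, by simp⟩
  | insert e F he ih =>
    obtain ⟨τ, hτ, h⟩ := ih (hf.mono (by simp))
    refine ⟨swap (τ e) (f e) * τ, mul_mem ?_ hτ, ?_⟩
    · by_cases h' : τ e = f e
      · rw [h', swap_self]
        exact one_mem _
      · exact Subgroup.subset_closure ⟨_, _, h', rfl⟩
    · intro x hx
      rw [Finset.mem_insert] at hx
      rcases hx with rfl | hx
      · rw [Perm.mul_apply, swap_apply_left]
      · have hne : x ≠ e := by rintro rfl; exact he hx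
        rw [Perm.mul_apply, h x hx]
        apply swap_apply_of_ne_of_ne
        · rw [← h x hx]
          intro h'
          exact hne (τ.injective h')
        · intro h'
          exact hne (hf (by simp [hx]) (by simp) h')

theorem finitary_normal {X : Type*} [DecidableEq X] (f τ : Perm X)
    (hτ : τ ∈ Subgroup.closure {σ : Perm X | σ.IsSwap}) :
    f * τ * f⁻¹ ∈ Subgroup.closure {σ : Perm X | σ.IsSwap} := by
  induction hτ using Subgroup.closure_induction with
  | mem x hx =>
    obtain ⟨u, v, huv, rfl⟩ := hx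
    rw [swap_conj']
    exact Subgroup.subset_closure ⟨_, _, fun h => huv (f.injective h), rfl⟩
  | one => simp
  | mul x y _ _ hx hy =>
    have : f * (x * y) * f⁻¹ = (f * x * f⁻¹) * (f * y * f⁻¹) := by group
    rw [this]
    exact mul_mem hx hy
  | inv x _ hx =>
    have : f * x⁻¹ * f⁻¹ = (f * x * f⁻¹)⁻¹ := by group
    rw [this]
    exact inv_mem hx

/-- A finitely generated permutation group containing all finitary permutations has finitely
generated pointwise stabilizers of finite sets. -/
theorem stab_fg {X Q : Type*} [Group Q] (π : Q →* Perm X) [Infinite X]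
    (hπ : Function.Injective π) (A : Finset Q) (hA : Subgroup.closure (A : Set Q) = ⊤)
    (hfs : ∀ f : Perm X, (fixedBy X f)ᶜ.Finite → f ∈ π.range) (F : Finset X) :
    ((⨅ x ∈ F, MulAction.stabilizer (Perm X) x).comap π).FG := by
  classical
  set K := (⨅ x ∈ F, MulAction.stabilizer (Perm X) x).comap π with hK
  set D : Subgroup (Perm X) := Subgroup.closure {σ : Perm X | σ.IsSwap} with hD
  have hmemK : ∀ q, q ∈ K ↔ ∀ x ∈ F, π q x = x := by
    intro q
    simp [hK, Subgroup.mem_comap, Subgroup.mem_iInf, MulAction.mem_stabilizer_iff]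
  have hD' : ∀ f ∈ D, ∃ q, π q = f := by
    intro f hf
    exact hfs f (mem_closure_isSwap'.1 hf)
  have hsw : ∀ x y : X, ∃ q, π q = swap x y := by
    intro x y
    apply hD'
    by_cases h : x = y
    · rw [h, swap_self]; exact one_mem _
    · exact Subgroup.subset_closure ⟨x, y, h, rfl⟩
  choose s hs using hsw
  -- the correcting elements
  have hσ : ∀ a : Q, ∃ σ : Q, π σ ∈ D ∧ ∀ x ∈ F, π (σ * a) x = x := by
    intro a
    obtain ⟨τ, hτ, h⟩ := exists_finitary F (π a) ((π a).injective.injOn)
    obtain ⟨σ, hσ⟩ := hD' τ⁻¹ (inv_mem hτ)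
    refine ⟨σ, by rw [hσ]; exact inv_mem hτ, ?_⟩
    intro x hx
    rw [map_mul, Perm.mul_apply, hσ, Perm.inv_eq_iff_eq]
    exact (h x hx).symm
  choose σ hσD hσF using hσ
  obtain ⟨x0⟩ : Nonempty X := inferInstance
  -- the exceptional points
  let Ea : Q → Set X := fun a => (π a) ⁻¹' (fixedBy X (π (σ a)))ᶜ
  have hEa : ∀ a, (Ea a).Finite := fun a =>
    (mem_closure_isSwap'.1 (hσD a)).preimage ((π a).injective.injOn)
  have hEa' : ∀ a x, x ∉ Ea a → π (σ a * a) x = π a x := by
    intro a x hx
    rw [map_mul, Perm.mul_apply]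
    by_contra h
    exact hx h
  let E : Set X := (F : Set X) ∪ {x0} ∪ ⋃ a ∈ A, Ea a
  have hE : E.Finite := (F.finite_toSet.union (Set.finite_singleton _)).union
    (Set.Finite.biUnion A.finite_toSet fun a _ => hEa a)
  let E0 : Set X := (E ∪ ⋃ a ∈ A, π a '' E) \ F
  have hE0 : E0.Finite := (hE.union
    (Set.Finite.biUnion A.finite_toSet fun a _ => hE.image _)).sdiff
  let B : Set Q := (fun a => σ a * a) '' A ∪ (fun p : X × X => s p.1 p.2) '' (E0 ×ˢ E0) ∪
    (fun p : X × Q => s p.1 (π (σ p.2 * p.2) p.1)) '' (E0 ×ˢ (A : Set Q))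
  have hB : B.Finite := ((A.finite_toSet.image _).union ((hE0.prod hE0).image _)).union
    ((hE0.prod A.finite_toSet).image _)
  have hFfix : ∀ a x, x ∉ F → π (σ a * a) x ∉ F := by
    intro a x hx h
    have := hσF a _ h
    have h' := (π (σ a * a)).injective this
    rw [h'] at h
    exact hx h
  have hfixsw : ∀ x y, x ∉ F → y ∉ F → s x y ∈ K := by
    intro x y hx hy
    rw [hmemK]
    intro z hz
    rw [hs]
    apply swap_apply_of_ne_of_ne
    · rintro rfl; exact hx hz
    · rintro rfl; exact hy hz
  have hBK : Subgroup.closure B ≤ K := by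
    rw [Subgroup.closure_le]
    rintro q ((⟨a, _, rfl⟩ | ⟨⟨x, y⟩, ⟨hx, hy⟩, rfl⟩) | ⟨⟨x, a⟩, ⟨hx, _⟩, rfl⟩)
    · exact (hmemK _).2 (hσF a)
    · exact hfixsw x y hx.2 hy.2
    · exact hfixsw x _ hx.2 (hFfix a x hx.2)
  set K' := Subgroup.closure B with hK'
  let M : Subgroup (Perm X) := K'.map π
  have hsM : ∀ x y, s x y ∈ K' → swap x y ∈ M := fun x y h => ⟨s x y, h, hs x y⟩
  have hMmem : ∀ q, π q ∈ M → q ∈ K' := by
    rintro q ⟨q', hq', h⟩
    rw [← hπ h]
    exact hq'
  have hE0M : ∀ x ∈ E0, ∀ y ∈ E0, swap x y ∈ M := fun x hx y hy =>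
    hsM x y (Subgroup.subset_closure (Or.inl (Or.inr ⟨(x, y), ⟨hx, hy⟩, rfl⟩)))
  have hE0M' : ∀ x ∈ E0, ∀ a ∈ A, swap x (π (σ a * a) x) ∈ M := fun x hx a ha =>
    hsM x _ (Subgroup.subset_closure (Or.inr ⟨(x, a), ⟨hx, ha⟩, rfl⟩))
  have hAM : ∀ a ∈ A, π (σ a * a) ∈ M := fun a ha =>
    ⟨_, Subgroup.subset_closure (Or.inl (Or.inl ⟨a, ha, rfl⟩)), rfl⟩
  have hconjM : ∀ u ∈ M, ∀ x y, swap x y ∈ M → swap (u x) (u y) ∈ M := by
    intro u hu x y h
    rw [← swap_conj']
    exact mul_mem (mul_mem hu h) (inv_mem hu)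
  -- every point outside `F` is linked to every point of `E0`
  have hlink : ∀ e ∈ E0, ∀ x, x ∉ F → swap e x ∈ M := by
    intro e he
    have hP : ∀ q : Q, (π q x0 ∈ F ∨ swap e (π q x0) ∈ M) := by
      have hstep : ∀ y, y ∈ E ∪ ⋃ a ∈ A, π a '' E → (y ∈ F ∨ swap e y ∈ M) := by
        intro y hy
        by_cases hyF : y ∈ F
        · exact Or.inl hyF
        · exact Or.inr (hE0M e he y ⟨hy, hyF⟩)
      intro q
      have hq : q ∈ Subgroup.closure (A : Set Q) := by rw [hA]; trivial
      induction hq using Subgroup.closure_induction_left with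
      | one =>
        apply hstep
        left
        simp [E]
      | mul_left a ha y _ ih =>
        rw [map_mul, Perm.mul_apply]
        by_cases hyE : π y x0 ∈ E
        · apply hstep
          right
          exact Set.mem_iUnion₂.2 ⟨a, ha, _, hyE, rfl⟩
        · right
          have hyF : π y x0 ∉ F := fun h => hyE (by simp [E, h])
          have hyM := ih.resolve_left hyF
          have hya : π y x0 ∉ Ea a := fun h => hyE (by
            right
            exact Set.mem_iUnion₂.2 ⟨a, ha, h⟩)
          rw [← hEa' a _ hya]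
          exact SubmonoidClass.swap_mem_trans M (hE0M' e he a ha) (hconjM _ (hAM a ha) _ _ hyM)
      | inv_mul_cancel a ha y _ ih =>
        rw [map_mul, Perm.mul_apply]
        set z := π a⁻¹ (π y x0) with hz
        have hz' : π a z = π y x0 := by
          rw [hz, map_inv]; exact (π a).apply_symm_apply _
        by_cases hzE : z ∈ E
        · exact hstep z (Or.inl hzE)
        · have hzF : z ∉ F := fun h => hzE (by simp [E, h])
          have hza : z ∉ Ea a := fun h => hzE (by
            right
            exact Set.mem_iUnion₂.2 ⟨a, ha, h⟩)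
          have h1 := hEa' a z hza
          rw [hz'] at h1
          have hyF : π y x0 ∉ F := by
            rw [← h1]
            exact hFfix a z hzF
          have hyM := ih.resolve_left hyF
          right
          have h2 := hconjM _ (inv_mem (hAM a ha)) _ _ hyM
          have e1 : ∀ w, (π (σ a * a))⁻¹ (π (σ a * a) w) = w := fun w =>
            (π (σ a * a)).symm_apply_apply w
          rw [← h1, e1] at h2
          have h3 := hconjM _ (inv_mem (hAM a ha)) _ _ (hE0M' e he a ha)
          rw [e1, swap_comm] at h3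
          exact SubmonoidClass.swap_mem_trans M h3 h2
    intro x hx
    have := hP (s x0 x)
    rw [hs, swap_apply_left] at this
    exact this.resolve_left hx
  have hnonempty : ∃ e, e ∈ E0 := by
    by_contra hcon
    push Not at hcon
    -- then `E ∪ ...  ⊆ F`, and everything is in `F`
    have hsub : ∀ y, y ∈ E ∪ ⋃ a ∈ A, π a '' E → y ∈ F := by
      intro y hy
      by_contra h
      exact hcon y ⟨hy, h⟩
    have hP : ∀ q : Q, π q x0 ∈ F := by
      intro q
      have hq : q ∈ Subgroup.closure (A : Set Q) := by rw [hA]; trivial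
      induction hq using Subgroup.closure_induction_left with
      | one =>
        apply hsub
        left
        simp [E]
      | mul_left a ha y _ ih =>
        rw [map_mul, Perm.mul_apply]
        apply hsub
        right
        exact Set.mem_iUnion₂.2 ⟨a, ha, _, by simp [E, ih], rfl⟩
      | inv_mul_cancel a ha y _ ih =>
        rw [map_mul, Perm.mul_apply]
        set z := π a⁻¹ (π y x0) with hz
        have hz' : π a z = π y x0 := by
          rw [hz, map_inv]; exact (π a).apply_symm_apply _
        by_cases hzE : z ∈ E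
        · exact hsub z (Or.inl hzE)
        · exfalso
          have hzF : z ∉ F := fun h => hzE (by simp [E, h])
          have hza : z ∉ Ea a := fun h => hzE (by
            right
            exact Set.mem_iUnion₂.2 ⟨a, ha, h⟩)
          have h1 := hEa' a z hza
          rw [hz'] at h1
          exact hFfix a z hzF (h1 ▸ ih)
    obtain ⟨x, hx⟩ := Infinite.exists_notMem_finset F
    apply hx
    have := hP (s x0 x)
    rwa [hs, swap_apply_left] at this
  obtain ⟨e, he⟩ := hnonempty
  have hall : ∀ x y, x ∉ F → y ∉ F → swap x y ∈ M := by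
    intro x y hx hy
    exact SubmonoidClass.swap_mem_trans M (swap_comm e x ▸ hlink e he x hx) (hlink e he y hy)
  have hfin : ∀ f ∈ D, (∀ x ∈ F, f x = x) → f ∈ M := by
    intro f hf hfix
    let S : Set (Perm X) := {τ | ∃ x y, x ∉ F ∧ y ∉ F ∧ x ≠ y ∧ τ = swap x y}
    have hS : Subgroup.closure S ≤ M := by
      rw [Subgroup.closure_le]
      rintro _ ⟨x, y, hx, hy, -, rfl⟩
      exact hall x y hx hy
    apply hS
    rw [mem_closure_isSwap (by rintro _ ⟨x, y, -, -, hxy, rfl⟩; exact ⟨x, y, hxy, rfl⟩)]
    refine ⟨mem_closure_isSwap'.1 hf, fun x => ?_⟩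
    by_cases hx : x ∈ F
    · rw [hfix x hx]
      exact MulAction.mem_orbit_self x
    · by_cases hxx : f x = x
      · rw [hxx]
        exact MulAction.mem_orbit_self x
      · have hfx : f x ∉ F := by
          intro h
          have := hfix _ h
          exact hxx (f.injective this)
        refine ⟨⟨swap x (f x), Subgroup.subset_closure ⟨x, f x, hx, hfx, Ne.symm hxx, rfl⟩⟩, ?_⟩
        exact swap_apply_left x (f x)
  -- decomposition
  have hdecomp : ∀ q : Q, ∃ t u : Q, π t ∈ D ∧ u ∈ K' ∧ q = t * u := by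
    intro q
    have hq : q ∈ Subgroup.closure (A : Set Q) := by rw [hA]; trivial
    have hã : ∀ a ∈ A, σ a * a ∈ K' := fun a ha =>
      Subgroup.subset_closure (Or.inl (Or.inl ⟨a, ha, rfl⟩))
    induction hq using Subgroup.closure_induction_left with
    | one => exact ⟨1, 1, by rw [map_one]; exact one_mem _, one_mem _, by simp⟩
    | mul_left a ha y _ ih =>
      obtain ⟨t, u, ht, hu, rfl⟩ := ih
      refine ⟨(σ a)⁻¹ * ((σ a * a) * t * (σ a * a)⁻¹), (σ a * a) * u, ?_,
        mul_mem (hã a ha) hu, by group⟩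
      rw [map_mul, map_inv, map_mul, map_mul, map_inv]
      exact mul_mem (inv_mem (hσD a)) (finitary_normal _ _ ht)
    | inv_mul_cancel a ha y _ ih =>
      obtain ⟨t, u, ht, hu, rfl⟩ := ih
      refine ⟨(σ a * a)⁻¹ * (σ a * t) * (σ a * a)⁻¹⁻¹, (σ a * a)⁻¹ * u, ?_,
        mul_mem (inv_mem (hã a ha)) hu, by group⟩
      rw [map_mul, map_mul, map_inv π (σ a * a)⁻¹, map_mul π (σ a) t]
      exact finitary_normal _ _ (mul_mem (hσD a) ht)
  have hKK' : K = K' := by
    apply le_antisymm _ hBK
    intro q hq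
    obtain ⟨t, u, ht, hu, rfl⟩ := hdecomp q
    have htK : t ∈ K := by
      have := mul_mem hq (inv_mem (hBK hu))
      simpa using this
    have : π t ∈ M := hfin _ ht ((hmemK t).1 htK)
    exact mul_mem (hMmem t this) hu
  rw [hKK', Subgroup.fg_iff]
  exact ⟨B, rfl, hB⟩

end Pool.Agent.TH74.Oligo
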